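import Pool.Agent.H76.AB.Stm

set_option autoImplicit false

/-! Part RAMB: the balanced case. -/

namespace H90.AB

open SimpleGraph H76.AB

/-- reachable by positions of colour `j` -/
def Rch {q : ℕ} (τ : List ℕ → ℕ → Fin q) (j : Fin q) : List ℕ → Prop
  | [] => True
  | p :: P => τ P p = j ∧ Rch τ j P

theorem valid_of_mem {q : ℕ} {R : Raw} {m : ℕ} {w : ℕ → ℕ} {M N g : ℕ} {col : R.V → ℕ → Fin q}
    {K : Set R.V} {τ : List ℕ → ℕ → Fin q} (hS : Sys m w N g R) (hM : 1 ≤ M)
    (hK : Hom R m w M col K τ) (P : List ℕ) : ∀ u ∈ K, R.node u = P → Valid m w P := by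
  induction P with
  | nil => intro u _ _; trivial
  | cons p P ih =>
    intro u hu hP
    have h1 := hK.2.2 u hu p P hP
    have h2 : {x | x ∈ K ∧ R.node x = P ∧ R.par x p = u}.Nonempty := by
      apply Set.nonempty_of_ncard_ne_zero
      omega
    obtain ⟨x, hx, hxP, _⟩ := h2
    refine ⟨?_, hS.hval u p P hP, ih x hx hxP⟩
    have := hS.len u
    unfold Raw.lev at this
    rw [hP, List.length_cons] at this
    omega

theorem t_RAMB (hEMB : S_EMB) (hINJ : S_INJ) (hLFG : S_LFG) : S_RAMB := by
  classical
  intro W _ T q s N g D R hT hs hE hg hSys c K τ j hHom hpend hbal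
  set m := s.length with hm
  set w : ℕ → ℕ := fun i => q * s.getD i 0 with hw
  obtain ⟨lam, hlam, hadj, hup⟩ := hE
  have hne : Nonempty W := hT.1.nonempty
  have hcard : 1 ≤ Nat.card W := Nat.card_pos
  have hfin : Finite R.V := hSys.fin
  -- the graph of the edges of colour `j`
  let Hj : SimpleGraph (R.V ⊕ R.V × Fin D) :=
    { Adj := fun a b => (R.G m w D).Adj a b ∧ c s(a, b) = j
      symm := ⟨fun a b h => ⟨h.1.symm, by rw [Sym2.eq_swap]; exact h.2⟩⟩
      loopless := ⟨fun a h => (R.G m w D).irrefl h.1⟩ }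
  let lev : R.V ⊕ R.V × Fin D → ℕ := fun a => match a with
    | Sum.inl x => R.lev x + 1
    | Sum.inr _ => 0
  let K' : Set (R.V ⊕ R.V × Fin D) := {a | match a with
    | Sum.inl x => x ∈ K ∧ Rch τ j (R.node x)
    | Sum.inr z => z.1 ∈ K ∧ R.node z.1 = [] ∧ c s(Sum.inl z.1, Sum.inr z) = j}
  have hval : ∀ u ∈ K, Valid m w (R.node u) := fun u hu => valid_of_mem hSys hcard hHom _ u hu rfl
  -- parents
  have hparent : ∀ x ∈ K, Rch τ j (R.node x) → R.lev x < m → ∀ p, p < w (R.lev x) →
      τ (R.node x) p = j → (Sum.inl (R.par x p) : R.V ⊕ R.V × Fin D) ∈ K' ∧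
      Hj.Adj (Sum.inl x) (Sum.inl (R.par x p)) ∧ R.lev (R.par x p) = R.lev x + 1 := by
    intro x hx hr hl p hp hτ
    obtain ⟨h1, h2⟩ := hHom.2.1 x hx hl p hp
    have h3 := hSys.hpar x p hl hp
    have h4 : R.lev (R.par x p) = R.lev x + 1 := by
      unfold Raw.lev
      rw [h3, List.length_cons]
    refine ⟨⟨h1, ?_⟩, ⟨⟨?_, Or.inl ⟨p, hl, hp, rfl⟩⟩, ?_⟩, h4⟩
    · rw [h3]
      exact ⟨hτ, hr⟩
    · intro h
      rw [← h] at h4
      omega
    · exact h2.trans hτ
  have hemb := hEMB (R.V ⊕ R.V × Fin D) W T Hj lev K' lam (fun i => (1 :: s).getD i 0) (m + 1) hT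
    ?_ ?_ ?_ ?_ hadj hup
  · obtain ⟨f, hfK, hfadj, hfinj⟩ := hemb
    have hloc : LocF (R.G m w D) (Nat.card W) := by
      have h1 := hLFG m w g D R hSys.forest
      intro S hS hSc
      exact h1 S hS (hSc.trans hg)
    have hinj := hINJ (R.V ⊕ R.V × Fin D) W T (R.G m w D) f hT.1 hloc
      (fun x y h => (hfadj x y h).1) hfinj
    exact ⟨j, f, hinj, fun x y h => hfadj x y h⟩
  · -- children
    rintro (x | z) hu hlev
    · obtain ⟨hx, hr⟩ := hu
      cases hnode : R.node x with
      | nil =>
        have h1 := hpend x hx hnode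
        have hfd : {d : Fin D | c s(Sum.inl x, Sum.inr (x, d)) = j}.Finite := Set.toFinite _
        refine ⟨hfd.toFinset.image (fun d => Sum.inr (x, d)), ?_, ?_⟩
        · rw [Finset.card_image_of_injective]
          · rwa [Set.ncard_eq_toFinset_card _ hfd] at h1
          · intro d d' h
            simpa using h
        · intro a ha
          rw [Finset.mem_image] at ha
          obtain ⟨d, hd, rfl⟩ := ha
          rw [Set.Finite.mem_toFinset] at hd
          refine ⟨⟨hx, hnode, hd⟩, ⟨⟨rfl, hnode⟩, hd⟩, ?_⟩
          show 0 + 1 = R.lev x + 1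
          unfold Raw.lev
          rw [hnode]
          rfl
      | cons p P =>
        have h1 := hHom.2.2 x hx p P hnode
        have hfd : {y | y ∈ K ∧ R.node y = P ∧ R.par y p = x}.Finite := Set.toFinite _
        refine ⟨hfd.toFinset.image Sum.inl, ?_, ?_⟩
        · rw [Finset.card_image_of_injective _ Sum.inl_injective]
          rwa [Set.ncard_eq_toFinset_card _ hfd] at h1
        · intro a ha
          rw [Finset.mem_image] at ha
          obtain ⟨y, hy, rfl⟩ := ha
          rw [Set.Finite.mem_toFinset] at hy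
          obtain ⟨hyK, hyP, hyx⟩ := hy
          rw [hnode] at hr
          have hlx : R.lev x = P.length + 1 := by
            unfold Raw.lev
            rw [hnode, List.length_cons]
          have hly : R.lev y = P.length := by
            unfold Raw.lev
            rw [hyP]
          have hlm := hSys.len x
          have hyr : Rch τ j (R.node y) := by
            rw [hyP]; exact hr.2
          obtain ⟨-, h3, h4⟩ := hparent y hyK hyr (by omega) p
            (by rw [hly]; exact hSys.hval x p P hnode) (by rw [hyP]; exact hr.1)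
          rw [hyx] at h3 h4
          refine ⟨⟨hyK, hyr⟩, h3.symm, ?_⟩
          show R.lev y + 1 + 1 = R.lev x + 1
          omega
    · exact absurd hlev (by show ¬ 1 ≤ 0; omega)
  · -- parents
    rintro (x | z) hu hlev
    · obtain ⟨hx, hr⟩ := hu
      have hlx : R.lev x < m := by
        have : R.lev x + 1 < m + 1 := hlev
        omega
      have h1 := hbal (R.node x) (hval x hx) hlx
      have hfd : {p | p < w (R.node x).length ∧ τ (R.node x) p = j}.Finite :=
        (Set.finite_lt_nat (w (R.node x).length)).subset (fun p hp => hp.1)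
      refine ⟨hfd.toFinset.image (fun p => Sum.inl (R.par x p)), ?_, ?_⟩
      · rw [Finset.card_image_of_injOn]
        · unfold cnt at h1
          rw [Set.ncard_eq_toFinset_card _ hfd] at h1
          have h2 : (1 :: s).getD (lev (Sum.inl x)) 0 = s.getD (R.node x).length 0 := by
            show (1 :: s).getD (R.lev x + 1) 0 = _
            rw [List.getD_cons_succ]
            rfl
          rw [h2]
          exact h1
        · intro p hp p' hp' h
          rw [Finset.mem_coe, Set.Finite.mem_toFinset] at hp hp'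
          have h2 : R.par x p = R.par x p' := Sum.inl_injective h
          have h3 := hSys.hpar x p hlx hp.1
          have h4 := hSys.hpar x p' hlx hp'.1
          rw [h2, h4] at h3
          exact (List.cons.inj h3).1.symm
      · intro a ha
        rw [Finset.mem_image] at ha
        obtain ⟨p, hp, rfl⟩ := ha
        rw [Set.Finite.mem_toFinset] at hp
        obtain ⟨h2, h3, h4⟩ := hparent x hx hr hlx p hp.1 hp.2
        refine ⟨h2, h3, ?_⟩
        show R.lev (R.par x p) + 1 = R.lev x + 1 + 1
        omega
    · obtain ⟨hz, hzn, hzc⟩ := hu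
      refine ⟨{Sum.inl z.1}, ?_, ?_⟩
      · show (1 :: s).getD 0 0 ≤ _
        simp
      · intro a ha
        rw [Finset.mem_singleton] at ha
        subst ha
        refine ⟨⟨hz, ?_⟩, ⟨⟨rfl, hzn⟩, ?_⟩, ?_⟩
        · rw [hzn]; trivial
        · rw [Sym2.eq_swap]; exact hzc
        · show R.lev z.1 + 1 = 0 + 1
          unfold Raw.lev
          rw [hzn]
          rfl
  · -- all levels
    have hk : ∀ k ≤ m, ∃ x ∈ K, Rch τ j (R.node x) ∧ R.lev x = k := by
      intro k
      induction k with
      | zero =>
        intro _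
        obtain ⟨x, hx, hn⟩ := hHom.1
        refine ⟨x, hx, ?_, ?_⟩
        · rw [hn]; trivial
        · unfold Raw.lev; rw [hn]; rfl
      | succ k ih =>
        intro hk
        obtain ⟨x, hx, hr, hl⟩ := ih (by omega)
        have hlx : R.lev x < m := by omega
        have h1 := hbal (R.node x) (hval x hx) hlx
        have h2 : 1 ≤ s.getD (R.node x).length 0 := by
          have h3 : (R.node x).length < s.length := hlx
          rw [List.getD_eq_getElem s 0 h3]
          exact hs _ (List.getElem_mem h3)
        have h3 : {p | p < w (R.node x).length ∧ τ (R.node x) p = j}.Nonempty := by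
          apply Set.nonempty_of_ncard_ne_zero
          unfold cnt at h1
          omega
        obtain ⟨p, hp⟩ := h3
        obtain ⟨h4, h5, h6⟩ := hparent x hx hr hlx p hp.1 hp.2
        exact ⟨R.par x p, h4.1, h4.2, by omega⟩
    intro i hi
    rcases Nat.eq_zero_or_pos i with rfl | hpos
    · obtain ⟨x, hx, hn⟩ := hHom.1
      have h1 := hpend x hx hn
      have h2 : {d : Fin D | c s(Sum.inl x, Sum.inr (x, d)) = j}.Nonempty := by
        apply Set.nonempty_of_ncard_ne_zero
        omega
      obtain ⟨d, hd⟩ := h2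
      exact ⟨Sum.inr (x, d), ⟨hx, hn, hd⟩, rfl⟩
    · obtain ⟨x, hx, hr, hl⟩ := hk (i - 1) (by omega)
      refine ⟨Sum.inl x, ⟨hx, hr⟩, ?_⟩
      show R.lev x + 1 = i
      omega
  · intro x
    have := hlam x
    rw [List.length_cons] at this
    exact this

end H90.AB
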